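import Pool.Agent.U174.AK.Stm

/-!
# Project AK, package RM: games for fields
-/

set_option autoImplicit false

namespace Pool.Agent.U174.AK.RM

open Pool.Agent.U174.AK

section
variable {Q : Type → Type} (S : Syn Q) {A B : Type} {hA : ∀ Y : Type, Q Y → (Y → A) → Prop}
  {hB : ∀ Y : Type, Q Y → (Y → B) → Prop}

include S in
/-- reindexing -/
theorem reindex (sA : Sem S hA) (sB : Sem S hB) : ∀ (n : ℕ) {I J : Type} (g : J → I) (a : I → A) (b : I → B),
    Game hA hB n a b → Game hA hB n (a ∘ g) (b ∘ g) := by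
  intro n
  induction n with
  | zero =>
    intro I J g a b h φ
    have h1 := h (S.ren g φ)
    rwa [sA.ren, sB.ren] at h1
  | succ n ih =>
    intro I J g a b h
    unfold Game at h ⊢
    split_ifs with hn
    · rw [if_pos hn] at h
      intro a'
      obtain ⟨b', hb⟩ := h a'
      refine ⟨b', ?_⟩
      have h1 := ih (Sum.map g id) _ _ hb
      rwa [Sum.elim_comp_map, Sum.elim_comp_map, Function.comp_id, Function.comp_id] at h1
    · rw [if_neg hn] at h
      intro b'
      obtain ⟨a', ha⟩ := h b'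
      refine ⟨a', ?_⟩
      have h1 := ih (Sum.map g id) _ _ ha
      rwa [Sum.elim_comp_map, Sum.elim_comp_map, Function.comp_id, Function.comp_id] at h1

include S in
/-- the game gives equivalence of quantifier-free formulas -/
theorem qf [Nonempty A] [Nonempty B] (sA : Sem S hA) (sB : Sem S hB) : ∀ (n : ℕ) {I : Type} (a : I → A)
    (b : I → B), Game hA hB n a b → ∀ φ : Q I, hA I φ a ↔ hB I φ b := by
  intro n
  induction n with
  | zero =>
    intro I a b h φ
    exact h φ
  | succ n ih =>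
    intro I a b h φ
    unfold Game at h
    obtain ⟨a', b', h'⟩ : ∃ (a' : ℕ → A) (b' : ℕ → B), Game hA hB n (Sum.elim a a') (Sum.elim b b') := by
      split_ifs at h with hn
      · obtain ⟨b', h'⟩ := h (fun _ => Classical.arbitrary A)
        exact ⟨_, b', h'⟩
      · obtain ⟨a', h'⟩ := h (fun _ => Classical.arbitrary B)
        exact ⟨a', _, h'⟩
    have h1 := ih _ _ h' (S.ren Sum.inl φ)
    rwa [sA.ren, sB.ren, Sum.elim_comp_inl, Sum.elim_comp_inl] at h1

include S in
theorem move_odd (sA : Sem S hA) (sB : Sem S hB) {κ κ' : Type} [Nonempty κ'] [Countable κ'] (n : ℕ)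
    (hn : Odd (n + 1)) (a : κ → A) (b : κ → B) (h : Game hA hB (n + 1) a b) (a' : κ' → A) :
    ∃ b' : κ' → B, Game hA hB n (Sum.elim a a') (Sum.elim b b') := by
  obtain ⟨en, hen⟩ := exists_surjective_nat κ'
  unfold Game at h
  rw [if_pos hn] at h
  obtain ⟨b', hb⟩ := h (a' ∘ en)
  refine ⟨b' ∘ Function.surjInv hen, ?_⟩
  have h1 := reindex S sA sB n (Sum.map id (Function.surjInv hen)) _ _ hb
  rw [Sum.elim_comp_map, Sum.elim_comp_map, Function.comp_id, Function.comp_id] at h1
  have h2 : (a' ∘ en) ∘ Function.surjInv hen = a' := by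
    funext x
    simp [Function.surjInv_eq hen]
  rwa [h2] at h1

include S in
theorem move_even (sA : Sem S hA) (sB : Sem S hB) {κ κ' : Type} [Nonempty κ'] [Countable κ'] (n : ℕ)
    (hn : ¬ Odd (n + 1)) (a : κ → A) (b : κ → B) (h : Game hA hB (n + 1) a b) (b' : κ' → B) :
    ∃ a' : κ' → A, Game hA hB n (Sum.elim a a') (Sum.elim b b') := by
  obtain ⟨en, hen⟩ := exists_surjective_nat κ'
  unfold Game at h
  rw [if_neg hn] at h
  obtain ⟨a', ha⟩ := h (b' ∘ en)
  refine ⟨a' ∘ Function.surjInv hen, ?_⟩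
  have h1 := reindex S sA sB n (Sum.map id (Function.surjInv hen)) _ _ ha
  rw [Sum.elim_comp_map, Sum.elim_comp_map, Function.comp_id, Function.comp_id] at h1
  have h2 : (b' ∘ en) ∘ Function.surjInv hen = b' := by
    funext x
    simp [Function.surjInv_eq hen]
  rwa [h2] at h1

end

theorem hom_of {κ κ' A B : Type} [Field κ] [Field κ'] [Field A] [Field B] (e : κ →+* κ') (a : κ → A)
    (b : κ → B) (a' : κ' →+* A) (b' : κ' → B) (ha : ∀ x, a' (e x) = a x)
    (H : ∀ φ : RQ (κ ⊕ κ'), RQ.holds A _ φ (Sum.elim a (fun x => a' x)) → RQ.holds B _ φ (Sum.elim b b')) :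
    ∃ g : κ' →+* B, (∀ x, g x = b' x) ∧ ∀ x, g (e x) = b x := by
  refine ⟨{ toFun := b', map_one' := ?_, map_mul' := ?_, map_zero' := ?_, map_add' := ?_ }, fun x => rfl, ?_⟩
  · have h := H (RQ.eq (FT.var (Sum.inr 1)) FT.one)
    simp only [RQ.holds, FT.eval, Sum.elim_inr, Sum.elim_inl] at h
    exact h (map_one a')
  · intro x y
    have h := H (RQ.eq (FT.var (Sum.inr (x * y))) (FT.mul (FT.var (Sum.inr x)) (FT.var (Sum.inr y))))
    simp only [RQ.holds, FT.eval, Sum.elim_inr, Sum.elim_inl] at h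
    exact h (map_mul a' x y)
  · have h := H (RQ.eq (FT.var (Sum.inr 0)) FT.zero)
    simp only [RQ.holds, FT.eval, Sum.elim_inr, Sum.elim_inl] at h
    exact h (map_zero a')
  · intro x y
    have h := H (RQ.eq (FT.var (Sum.inr (x + y))) (FT.add (FT.var (Sum.inr x)) (FT.var (Sum.inr y))))
    simp only [RQ.holds, FT.eval, Sum.elim_inr, Sum.elim_inl] at h
    exact h (map_add a' x y)
  · intro x
    have h := H (RQ.eq (FT.var (Sum.inr (e x))) (FT.var (Sum.inl x)))
    simp only [RQ.holds, FT.eval, Sum.elim_inr, Sum.elim_inl] at h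
    exact h (ha x)

theorem t_RMOV : S_SYN → S_RMOV := by
  rintro ⟨⟨S, hS⟩, -⟩ κ κ' A B _ _ _ _ e hκ n
  haveI := hκ
  refine ⟨?_, ?_⟩
  · intro hn a b a' ha h
    obtain ⟨b', hb⟩ := move_odd S (hS A) (hS B) n hn _ _ h (fun x : κ' => a' x)
    obtain ⟨g, hg, hg2⟩ := hom_of e (fun x => a x) (fun x => b x) a' b' ha
      (fun φ => (qf S (hS A) (hS B) n _ _ hb φ).mp)
    refine ⟨g, hg2, ?_⟩
    have h1 := reindex S (hS A) (hS B) n (Sum.inr : κ' → κ ⊕ κ') _ _ hb
    rw [Sum.elim_comp_inr, Sum.elim_comp_inr] at h1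
    have h2 : b' = fun x => g x := funext fun x => (hg x).symm
    rwa [h2] at h1
  · intro hn a b b' hb h
    obtain ⟨a', ha⟩ := move_even S (hS A) (hS B) n hn _ _ h (fun x : κ' => b' x)
    obtain ⟨g, hg, hg2⟩ := hom_of e (fun x => b x) (fun x => a x) b' a' hb
      (fun φ => (qf S (hS A) (hS B) n _ _ ha φ).mpr)
    refine ⟨g, hg2, ?_⟩
    have h1 := reindex S (hS A) (hS B) n (Sum.inr : κ' → κ ⊕ κ') _ _ ha
    rw [Sum.elim_comp_inr, Sum.elim_comp_inr] at h1
    have h2 : a' = fun x => g x := funext fun x => (hg x).symm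
    rwa [h2] at h1

/-! ### RBASE -/

/-- numerals -/
def nat {X : Type} : ℕ → FT X
  | 0 => FT.zero
  | n + 1 => FT.add (nat n) FT.one

/-- numerals -/
def int {X : Type} : ℤ → FT X
  | Int.ofNat n => nat n
  | Int.negSucc n => FT.neg (nat (n + 1))

theorem nat_eval {X A : Type} [CommRing A] (u : X → A) (n : ℕ) : (nat n).eval u = (n : A) := by
  induction n with
  | zero => simp [nat, FT.eval]
  | succ n ih => simp [nat, FT.eval, ih]

theorem int_eval {X A : Type} [CommRing A] (u : X → A) (n : ℤ) : (int n).eval u = (n : A) := by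
  cases n with
  | ofNat n => simp [int, nat_eval]
  | negSucc n =>
    simp only [int, FT.eval, nat_eval, Int.cast_negSucc]

section
variable {κ A B : Type} [Field κ] [Field A] [Field B] (hc : CharZero κ)
  (hq : ∀ x : κ, ∃ m k : ℤ, k ≠ 0 ∧ (k : κ) * x = m) (a : κ →+* A) (b : κ →+* B)

include hq in
theorem term {I : Type} (s : FT (κ ⊕ I)) : ∃ N : ℤ, N ≠ 0 ∧ ∃ s' : FT I,
    (∀ u : I → A, (N : A) * s.eval (Sum.elim (fun x => a x) u) = s'.eval u) ∧
    ∀ v : I → B, (N : B) * s.eval (Sum.elim (fun x => b x) v) = s'.eval v := by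
  induction s with
  | var i =>
    rcases i with x | i
    · obtain ⟨m, k, hk, h⟩ := hq x
      refine ⟨k, hk, int m, fun u => ?_, fun v => ?_⟩
      · rw [int_eval, ← map_intCast a m, ← h, map_mul, map_intCast]
        rfl
      · rw [int_eval, ← map_intCast b m, ← h, map_mul, map_intCast]
        rfl
    · exact ⟨1, one_ne_zero, FT.var i, fun u => by simp [FT.eval], fun v => by simp [FT.eval]⟩
  | zero => exact ⟨1, one_ne_zero, FT.zero, fun u => by simp [FT.eval], fun v => by simp [FT.eval]⟩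
  | one => exact ⟨1, one_ne_zero, FT.one, fun u => by simp [FT.eval], fun v => by simp [FT.eval]⟩
  | add s t hs ht =>
    obtain ⟨N, hN, s', h1, h2⟩ := hs
    obtain ⟨M, hM, t', h3, h4⟩ := ht
    refine ⟨N * M, mul_ne_zero hN hM, FT.add (FT.mul (int M) s') (FT.mul (int N) t'), fun u => ?_, fun v => ?_⟩
    · simp only [FT.eval, int_eval, ← h1, ← h3, Int.cast_mul]
      ring
    · simp only [FT.eval, int_eval, ← h2, ← h4, Int.cast_mul]
      ring
  | neg s hs =>
    obtain ⟨N, hN, s', h1, h2⟩ := hs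
    refine ⟨N, hN, FT.neg s', fun u => ?_, fun v => ?_⟩
    · simp only [FT.eval, ← h1]
      ring
    · simp only [FT.eval, ← h2]
      ring
  | mul s t hs ht =>
    obtain ⟨N, hN, s', h1, h2⟩ := hs
    obtain ⟨M, hM, t', h3, h4⟩ := ht
    refine ⟨N * M, mul_ne_zero hN hM, FT.mul s' t', fun u => ?_, fun v => ?_⟩
    · simp only [FT.eval, ← h1, ← h3, Int.cast_mul]
      ring
    · simp only [FT.eval, ← h2, ← h4, Int.cast_mul]
      ring

theorem cancel {R : Type} [Field R] [CharZero R] (N M : ℤ) (hN : N ≠ 0) (hM : M ≠ 0) (s t : R) :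
    s = t ↔ (M : R) * ((N : R) * s) = (N : R) * ((M : R) * t) := by
  constructor
  · rintro rfl
    ring
  · intro h
    have h1 : ((M : R) * N) * s = ((M : R) * N) * t := by
      rw [mul_assoc, h]; ring
    have h2 : ((M : R) * N) ≠ 0 := mul_ne_zero (by exact_mod_cast hM) (by exact_mod_cast hN)
    exact mul_left_cancel₀ h2 h1

include hc hq in
theorem qf_base {I : Type} (u : I → A) (v : I → B) (H : ∀ φ : RQ I, RQ.holds A _ φ u ↔ RQ.holds B _ φ v)
    (φ : RQ (κ ⊕ I)) : RQ.holds A _ φ (Sum.elim (fun x => a x) u) ↔ RQ.holds B _ φ (Sum.elim (fun x => b x) v) := by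
  haveI := hc
  haveI : CharZero A := charZero_of_injective_ringHom a.injective
  haveI : CharZero B := charZero_of_injective_ringHom b.injective
  induction φ with
  | eq s t =>
    obtain ⟨N, hN, s', h1, h2⟩ := term hq a b s
    obtain ⟨M, hM, t', h3, h4⟩ := term hq a b t
    have h := H (RQ.eq (FT.mul (int M) s') (FT.mul (int N) t'))
    simp only [RQ.holds, FT.eval, int_eval, ← h1, ← h2, ← h3, ← h4] at h
    simp only [RQ.holds]
    exact (cancel N M hN hM _ _).trans (h.trans (cancel N M hN hM _ _).symm)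
  | not φ ih => simp only [RQ.holds]; exact not_congr ih
  | and φ ψ ih1 ih2 => simp only [RQ.holds]; exact and_congr ih1 ih2
  | or φ ψ ih1 ih2 => simp only [RQ.holds]; exact or_congr ih1 ih2

include hc hq in
theorem base (S : Syn RQ) (hS : ∀ (A : Type) [CommRing A], Sem S (RQ.holds A)) : ∀ (n : ℕ) {I : Type}
    (u : I → A) (v : I → B), Game (RQ.holds A) (RQ.holds B) n u v →
    Game (RQ.holds A) (RQ.holds B) n (Sum.elim (fun x => a x) u) (Sum.elim (fun x => b x) v) := by
  intro n
  induction n with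
  | zero =>
    intro I u v h φ
    exact qf_base hc hq a b u v h φ
  | succ n ih =>
    intro I u v h
    unfold Game at h ⊢
    split_ifs with hn
    · rw [if_pos hn] at h
      intro a'
      obtain ⟨b', hb⟩ := h a'
      refine ⟨b', ?_⟩
      have h1 := reindex S (hS A) (hS B) n (Equiv.sumAssoc κ I ℕ) _ _ (ih _ _ hb)
      convert h1 using 1
      · funext x; rcases x with (x | x) | x <;> rfl
      · funext x; rcases x with (x | x) | x <;> rfl
    · rw [if_neg hn] at h
      intro b'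
      obtain ⟨a', ha⟩ := h b'
      refine ⟨a', ?_⟩
      have h1 := reindex S (hS A) (hS B) n (Equiv.sumAssoc κ I ℕ) _ _ (ih _ _ ha)
      convert h1 using 1
      · funext x; rcases x with (x | x) | x <;> rfl
      · funext x; rcases x with (x | x) | x <;> rfl

end

theorem t_RBASE : S_SYN → S_RBASE := by
  rintro ⟨⟨S, hS⟩, -⟩ κ A B _ _ _ hc hq a b n h
  have h1 := reindex S (hS A) (hS B) n (Sum.inl : κ → κ ⊕ Empty) _ _ (base hc hq a b S hS n _ _ h)
  rwa [Sum.elim_comp_inl, Sum.elim_comp_inl] at h1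

end Pool.Agent.U174.AK.RM
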