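import Mathlib

/-!
# Project AK (helper174): the Ax–Kochen–Ershov principle for all standard fragments (MP_65f174_lc, Q2)

THEOREM.  Let `(K, O)`, `(L, P)` be henselian valued fields of equal characteristic zero, `n ≥ 0`.  If the sentences
with `n` alternating blocks of quantifiers, the last one existential, which hold in the residue field (the value
group) of `K` hold in that of `L`, then the same is true for the sentences of the three-sorted language of valued
fields.  So the answer to Q2 is yes, for all standard fragments.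

PROOF.  Ultrapowers `K'`, `L'` over a nonprincipal ultrafilter of `ℕ` have the same theories and are countably
saturated, also the residue fields and value groups.  So the hypothesis gives winning strategies in the games with
`n` rounds for the residue fields and for the value groups, where a move is a sequence of elements (GAM).  These are
lifted to the valued fields: a countable henselian subfield `F'` of `K'` with a section `s'` of its valuation, whose
value group is pure, is embedded into `L'` over a smaller such field `F` with prescribed maps of the residue field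
and the value group (LT): first residues are adjoined (RES, Hensel's lemma), then the values of the section (VAL),
and the rest is an immediate extension (IMM, after Ostrowski and Kaplansky).

In Mathlib the value group is written multiplicatively, with `0` for infinity, with the reverse order.
-/

set_option autoImplicit false

namespace Pool.Agent.U174.AK

open IsLocalRing Polynomial Filter

/-! ### the languages -/

/-- ring terms in the variables `X` (the terms of the field sort) -/
inductive FT (X : Type) : Type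
  | var (x : X)
  | zero
  | one
  | add (s t : FT X)
  | neg (s : FT X)
  | mul (s t : FT X)

/-- terms of the residue field sort -/
inductive RT (X Y : Type) : Type
  | var (y : Y)
  | zero
  | one
  | add (s t : RT X Y)
  | neg (s : RT X Y)
  | mul (s t : RT X Y)
  | res (s : FT X)

/-- terms of the value group sort -/
inductive VT (X Z : Type) : Type
  | var (z : Z)
  | zero
  | infty
  | add (s t : VT X Z)
  | neg (s : VT X Z)
  | val (s : FT X)

/-- quantifier-free formulas of the three-sorted language of valued fields -/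
inductive Q3 (X Y Z : Type) : Type
  | eqF (s t : FT X)
  | eqR (s t : RT X Y)
  | eqV (s t : VT X Z)
  | leV (s t : VT X Z)
  | not (φ : Q3 X Y Z)
  | and (φ ψ : Q3 X Y Z)
  | or (φ ψ : Q3 X Y Z)

/-- formulas with `n` alternating blocks of quantifiers (possibly empty), the last one existential; a block may
contain variables of all sorts -/
def F3 : ℕ → Type → Type → Type → Type
  | 0, X, Y, Z => Q3 X Y Z
  | n + 1, X, Y, Z => Σ a b c : ℕ, F3 n (X ⊕ Fin a) (Y ⊕ Fin b) (Z ⊕ Fin c)

/-- quantifier-free formulas of the language of rings -/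
inductive RQ (Y : Type) : Type
  | eq (s t : FT Y)
  | not (φ : RQ Y)
  | and (φ ψ : RQ Y)
  | or (φ ψ : RQ Y)

/-- terms of the language of ordered abelian groups -/
inductive GT (Z : Type) : Type
  | var (z : Z)
  | zero
  | add (s t : GT Z)
  | neg (s : GT Z)

/-- quantifier-free formulas of the language of ordered abelian groups -/
inductive GQ (Z : Type) : Type
  | eq (s t : GT Z)
  | le (s t : GT Z)
  | not (φ : GQ Z)
  | and (φ ψ : GQ Z)
  | or (φ ψ : GQ Z)

/-- one-sorted formulas with `n` alternating blocks of quantifiers (possibly empty), the last one existential, in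
front of a quantifier-free formula -/
def Frag (Q : Type → Type) : ℕ → Type → Type
  | 0, Y => Q Y
  | n + 1, Y => Σ b : ℕ, Frag Q n (Y ⊕ Fin b)

/-- truth of a one-sorted formula -/
def Holds {Q : Type → Type} {A : Type} (h : ∀ Y : Type, Q Y → (Y → A) → Prop) :
    (n : ℕ) → {Y : Type} → Frag Q n Y → (Y → A) → Prop
  | 0, Y, φ, e => h Y φ e
  | n + 1, _, ⟨b, φ⟩, e =>
    if Odd (n + 1) then ∃ e' : Fin b → A, Holds h n φ (Sum.elim e e')
    else ∀ e' : Fin b → A, Holds h n φ (Sum.elim e e')

/-- the value of a ring term -/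
def FT.eval {X A : Type} [CommRing A] (x : X → A) : FT X → A
  | var i => x i
  | zero => 0
  | one => 1
  | add s t => s.eval x + t.eval x
  | neg s => - s.eval x
  | mul s t => s.eval x * t.eval x

/-- truth of quantifier-free formulas in a ring -/
def RQ.holds (A : Type) [CommRing A] : ∀ Y : Type, RQ Y → (Y → A) → Prop
  | _, eq s t, e => s.eval e = t.eval e
  | _, not φ, e => ¬ RQ.holds A _ φ e
  | _, and φ ψ, e => RQ.holds A _ φ e ∧ RQ.holds A _ ψ e
  | _, or φ ψ, e => RQ.holds A _ φ e ∨ RQ.holds A _ ψ e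

/-- the value of a term in an abelian group (multiplicative notation) -/
def GT.eval {Z G : Type} [CommGroup G] (z : Z → G) : GT Z → G
  | var i => z i
  | zero => 1
  | add s t => s.eval z * t.eval z
  | neg s => (s.eval z)⁻¹

/-- truth of quantifier-free formulas in an ordered abelian group (multiplicative notation, reverse order) -/
def GQ.holds (G : Type) [CommGroup G] [LinearOrder G] : ∀ Z : Type, GQ Z → (Z → G) → Prop
  | _, eq s t, e => s.eval e = t.eval e
  | _, le s t, e => t.eval e ≤ s.eval e
  | _, not φ, e => ¬ GQ.holds G _ φ e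
  | _, and φ ψ, e => GQ.holds G _ φ e ∧ GQ.holds G _ ψ e
  | _, or φ ψ, e => GQ.holds G _ φ e ∨ GQ.holds G _ ψ e

section
variable {K : Type} [Field K] (O : ValuationSubring K) {X Y Z : Type}

open Classical in
/-- the residue of an element of the field; zero outside of the valuation ring -/
noncomputable def rs (a : K) : ResidueField O :=
  if h : a ∈ O then residue O ⟨a, h⟩ else 0

/-- the value of a term of the residue field sort -/
noncomputable def RT.eval (x : X → K) (y : Y → ResidueField O) : RT X Y → ResidueField O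
  | var i => y i
  | zero => 0
  | one => 1
  | add s t => s.eval x y + t.eval x y
  | neg s => - s.eval x y
  | mul s t => s.eval x y * t.eval x y
  | res s => rs O (s.eval x)

/-- the value of a term of the value group sort -/
noncomputable def VT.eval (x : X → K) (z : Z → O.ValueGroup) : VT X Z → O.ValueGroup
  | var i => z i
  | zero => 1
  | infty => 0
  | add s t => s.eval x z * t.eval x z
  | neg s => (s.eval x z)⁻¹
  | val s => O.valuation (s.eval x)

/-- truth of a quantifier-free formula in the valued field -/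
def Q3.Holds (x : X → K) (y : Y → ResidueField O) (z : Z → O.ValueGroup) : Q3 X Y Z → Prop
  | eqF s t => s.eval x = t.eval x
  | eqR s t => s.eval O x y = t.eval O x y
  | eqV s t => s.eval O x z = t.eval O x z
  | leV s t => t.eval O x z ≤ s.eval O x z
  | not φ => ¬ φ.Holds x y z
  | and φ ψ => φ.Holds x y z ∧ ψ.Holds x y z
  | or φ ψ => φ.Holds x y z ∨ ψ.Holds x y z

/-- truth of a formula in the valued field -/
def F3.Holds : (n : ℕ) → {X Y Z : Type} → F3 n X Y Z → (X → K) → (Y → ResidueField O) →
    (Z → O.ValueGroup) → Prop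
  | 0, _, _, _, φ, x, y, z => Q3.Holds O x y z φ
  | n + 1, _, _, _, ⟨a, b, c, φ⟩, x, y, z =>
    if Odd (n + 1) then
      ∃ (x' : Fin a → K) (y' : Fin b → ResidueField O) (z' : Fin c → O.ValueGroup),
        F3.Holds n φ (Sum.elim x x') (Sum.elim y y') (Sum.elim z z')
    else
      ∀ (x' : Fin a → K) (y' : Fin b → ResidueField O) (z' : Fin c → O.ValueGroup),
        F3.Holds n φ (Sum.elim x x') (Sum.elim y y') (Sum.elim z z')

/-- the sentences with `n` alternating blocks, the last one existential, which are true in `(K, O)` -/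
def VTh (n : ℕ) : Set (F3 n Empty Empty Empty) :=
  {φ | F3.Holds O n φ Empty.elim Empty.elim Empty.elim}

end

/-- the ring sentences with `n` alternating blocks, the last one existential, which are true in `A` -/
def RTh (n : ℕ) (A : Type) [CommRing A] : Set (Frag RQ n Empty) :=
  {φ | AK.Holds (RQ.holds A) n φ Empty.elim}

/-- the sentences of the language of ordered abelian groups with `n` alternating blocks, the last one existential,
which are true in `G` -/
def GTh (n : ℕ) (G : Type) [CommGroup G] [LinearOrder G] : Set (Frag GQ n Empty) :=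
  {φ | AK.Holds (GQ.holds G) n φ Empty.elim}

/-- **Main theorem.** -/
def S_MAIN : Prop := ∀ (K L : Type) [Field K] [Field L] (O : ValuationSubring K) (P : ValuationSubring L),
  HenselianLocalRing O → HenselianLocalRing P → CharZero (ResidueField O) → CharZero (ResidueField P) →
  ∀ n : ℕ, RTh n (ResidueField O) ⊆ RTh n (ResidueField P) → GTh n O.ValueGroupˣ ⊆ GTh n P.ValueGroupˣ →
    VTh O n ⊆ VTh P n

/-! ### games and saturation (one-sorted, general) -/

/-- the game with `n` rounds: a move is a sequence of elements; in the round number `m` from the end the first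
player plays in `A` if `m` is odd and in `B` if `m` is even -/
def Game {Q : Type → Type} {A B : Type} (hA : ∀ Y : Type, Q Y → (Y → A) → Prop)
    (hB : ∀ Y : Type, Q Y → (Y → B) → Prop) : (n : ℕ) → {I : Type} → (I → A) → (I → B) → Prop
  | 0, I, a, b => ∀ φ : Q I, hA I φ a ↔ hB I φ b
  | n + 1, _, a, b =>
    if Odd (n + 1) then ∀ a' : ℕ → A, ∃ b' : ℕ → B, Game hA hB n (Sum.elim a a') (Sum.elim b b')
    else ∀ b' : ℕ → B, ∃ a' : ℕ → A, Game hA hB n (Sum.elim a a') (Sum.elim b b')

/-- operations on quantifier-free formulas -/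
structure Syn (Q : Type → Type) where
  ren : ∀ {Y Z : Type}, (Y → Z) → Q Y → Q Z
  tt : ∀ {Y : Type}, Q Y
  not : ∀ {Y : Type}, Q Y → Q Y
  and : ∀ {Y : Type}, Q Y → Q Y → Q Y
  or : ∀ {Y : Type}, Q Y → Q Y → Q Y
  cnt : ∀ Y : Type, Countable Y → Countable (Q Y)

/-- their meaning -/
structure Sem {Q : Type → Type} (S : Syn Q) {A : Type} (h : ∀ Y : Type, Q Y → (Y → A) → Prop) : Prop where
  ren : ∀ {Y Z : Type} (g : Y → Z) (φ : Q Y) (e : Z → A), h Z (S.ren g φ) e ↔ h Y φ (e ∘ g)
  tt : ∀ {Y : Type} (e : Y → A), h Y S.tt e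
  not : ∀ {Y : Type} (φ : Q Y) (e : Y → A), h Y (S.not φ) e ↔ ¬ h Y φ e
  and : ∀ {Y : Type} (φ ψ : Q Y) (e : Y → A), h Y (S.and φ ψ) e ↔ h Y φ e ∧ h Y ψ e
  or : ∀ {Y : Type} (φ ψ : Q Y) (e : Y → A), h Y (S.or φ ψ) e ↔ h Y φ e ∨ h Y ψ e
  supp : ∀ {Y : Type} (φ : Q Y), ∃ s : Finset Y, ∀ e e' : Y → A, (∀ y ∈ s, e y = e' y) → (h Y φ e ↔ h Y φ e')

/-- SYN: both languages are examples. -/
def S_SYN : Prop := (∃ S : Syn RQ, ∀ (A : Type) [CommRing A], Sem S (RQ.holds A)) ∧
  ∃ S : Syn GQ, ∀ (G : Type) [CommGroup G] [LinearOrder G], Sem S (GQ.holds G)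

/-- `A'` looks like an ultrapower of `A` for the quantifier-free formulas -/
structure Star {Q : Type → Type} {A A' : Type} (hA : ∀ Y : Type, Q Y → (Y → A) → Prop)
    (hA' : ∀ Y : Type, Q Y → (Y → A') → Prop) (π : (ℕ → A) → A') : Prop where
  surj : Function.Surjective π
  qf : ∀ (Y : Type) (φ : Q Y) (e : Y → ℕ → A),
    hA' Y φ (fun y => π (e y)) ↔ ∀ᶠ j in (hyperfilter ℕ : Filter ℕ), hA Y φ (fun y => e y j)

/-- LOS: the theorem of Łoś. -/
def S_LOS : Prop := ∀ (Q : Type → Type) (A A' : Type) [Nonempty A] (hA : ∀ Y : Type, Q Y → (Y → A) → Prop)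
  (hA' : ∀ Y : Type, Q Y → (Y → A') → Prop) (π : (ℕ → A) → A'), Star hA hA' π →
  ∀ (n : ℕ) (Y : Type) (φ : Frag Q n Y) (e : Y → ℕ → A),
    Holds hA' n φ (fun y => π (e y)) ↔ ∀ᶠ j in (hyperfilter ℕ : Filter ℕ), Holds hA n φ (fun y => e y j)

/-- countable saturation -/
def FSat {Q : Type → Type} {A : Type} (h : ∀ Y : Type, Q Y → (Y → A) → Prop) : Prop :=
  ∀ (m : ℕ) (I : Type) (a : I → A) (Φ : ℕ → Frag Q m (I ⊕ ℕ)) (σ : ℕ → Prop),
    (∀ N : ℕ, ∃ a' : ℕ → A, ∀ i < N, (Holds h m (Φ i) (Sum.elim a a') ↔ σ i)) →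
    ∃ a' : ℕ → A, ∀ i, (Holds h m (Φ i) (Sum.elim a a') ↔ σ i)

/-- FSAT: ultrapowers are countably saturated.  (Diagonal argument: for each `j` take the largest `N ≤ j` for which
a solution of the first `N` conditions exists at the coordinate `j`.) -/
def S_FSAT : Prop := ∀ (Q : Type → Type) (A A' : Type) [Nonempty A] (hA : ∀ Y : Type, Q Y → (Y → A) → Prop)
  (hA' : ∀ Y : Type, Q Y → (Y → A') → Prop) (π : (ℕ → A) → A'), Star hA hA' π → FSat hA'

/-- GAM: in countably saturated structures inclusion of theories gives the game.  (Conjunctions and disjunctions of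
formulas in `Frag Q m Y` are equivalent to formulas in `Frag Q m Y`: induction on `m`, merging the blocks; each
formula in the variables `I ⊕ ℕ` depends on finitely many variables, so it can be renamed to `I ⊕ Fin b`.) -/
def S_GAM : Prop := ∀ (Q : Type → Type) (S : Syn Q) (A B : Type) [Nonempty A] [Nonempty B]
  (hA : ∀ Y : Type, Q Y → (Y → A) → Prop) (hB : ∀ Y : Type, Q Y → (Y → B) → Prop), Sem S hA → Sem S hB →
  FSat hA → FSat hB → ∀ (n : ℕ) (I : Type) [Countable I] (a : I → A) (b : I → B),
  (∀ φ : Frag Q n I, Holds hA n φ a → Holds hB n φ b) → Game hA hB n a b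

/-! ### valued fields -/

section
variable {F K : Type} [Field F] [Field K]

/-- embeddings of valued fields -/
structure VEmb (O : ValuationSubring F) (P : ValuationSubring K) where
  f : F →+* K
  mem : ∀ x, f x ∈ P ↔ x ∈ O

variable {O : ValuationSubring F} {P : ValuationSubring K}

theorem VEmb.le_iff (i : VEmb O P) (x y : F) :
    P.valuation (i.f x) ≤ P.valuation (i.f y) ↔ O.valuation x ≤ O.valuation y := by
  by_cases hy : y = 0
  · subst hy
    simp
  · have hy' : i.f y ≠ 0 := by rwa [Ne, map_eq_zero]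
    have h1 : O.valuation x ≤ O.valuation y ↔ O.valuation (x / y) ≤ 1 := by
      rw [map_div₀, div_le_one₀ (zero_lt_iff.mpr ((Valuation.ne_zero_iff _).mpr hy))]
    have h2 : P.valuation (i.f x) ≤ P.valuation (i.f y) ↔ P.valuation (i.f (x / y)) ≤ 1 := by
      rw [map_div₀, map_div₀, div_le_one₀ (zero_lt_iff.mpr ((Valuation.ne_zero_iff _).mpr hy'))]
    rw [h1, h2, ValuationSubring.valuation_le_one_iff, ValuationSubring.valuation_le_one_iff, i.mem]

theorem VEmb.eq_iff (i : VEmb O P) (x y : F) :
    P.valuation (i.f x) = P.valuation (i.f y) ↔ O.valuation x = O.valuation y := by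
  rw [le_antisymm_iff, le_antisymm_iff, i.le_iff, i.le_iff]

/-- a preimage under the valuation -/
noncomputable def pre (O : ValuationSubring F) (γ : O.ValueGroup) : F := (O.valuation_surjective γ).choose

theorem pre_spec (O : ValuationSubring F) (γ : O.ValueGroup) : O.valuation (pre O γ) = γ :=
  (O.valuation_surjective γ).choose_spec

/-- the map of the value groups -/
noncomputable def VEmb.val (i : VEmb O P) : O.ValueGroup →*₀ P.ValueGroup where
  toFun γ := P.valuation (i.f (pre O γ))
  map_zero' := by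
    have h : pre O 0 = 0 := by
      rw [← Valuation.zero_iff O.valuation]; exact pre_spec O 0
    rw [h, map_zero, map_zero]
  map_one' := by
    have h : P.valuation (i.f (pre O 1)) = P.valuation (i.f 1) := by
      rw [i.eq_iff, pre_spec, map_one]
    rw [h, map_one, map_one]
  map_mul' γ δ := by
    rw [← map_mul, ← map_mul, i.eq_iff, map_mul, pre_spec, pre_spec, pre_spec]

theorem VEmb.val_valuation (i : VEmb O P) (x : F) : i.val (O.valuation x) = P.valuation (i.f x) := by
  change P.valuation (i.f (pre O (O.valuation x))) = _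
  rw [i.eq_iff, pre_spec]

theorem VEmb.val_strictMono (i : VEmb O P) : StrictMono i.val := by
  intro γ δ h
  change P.valuation (i.f (pre O γ)) < P.valuation (i.f (pre O δ))
  rw [lt_iff_not_ge, i.le_iff, pre_spec, pre_spec]
  exact not_le.mpr h

/-- the map of the valuation rings -/
def VEmb.ring (i : VEmb O P) : O →+* P where
  toFun x := ⟨i.f x, (i.mem _).mpr x.2⟩
  map_one' := Subtype.ext (map_one i.f)
  map_mul' x y := Subtype.ext (map_mul i.f _ _)
  map_zero' := Subtype.ext (map_zero i.f)
  map_add' x y := Subtype.ext (map_add i.f _ _)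

instance VEmb.ring_local (i : VEmb O P) : IsLocalHom i.ring where
  map_nonunit x hx := by
    rw [ValuationSubring.valuation_eq_one_iff] at hx ⊢
    have h : P.valuation (i.f (x : F)) = P.valuation (i.f 1) := by
      rw [map_one, map_one]; exact hx
    rw [i.eq_iff, map_one] at h
    exact h

/-- the map of the residue fields -/
noncomputable def VEmb.res (i : VEmb O P) : ResidueField O →+* ResidueField P := ResidueField.map i.ring

theorem VEmb.res_rs (i : VEmb O P) (x : F) : i.res (rs O x) = rs P (i.f x) := by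
  unfold rs
  by_cases h : x ∈ O
  · rw [dif_pos h, dif_pos ((i.mem x).mpr h)]
    rfl
  · rw [dif_neg h, dif_neg (fun h' => h ((i.mem x).mp h')), map_zero]

/-- `s` is a section of the valuation -/
def Sec (O : ValuationSubring F) (s : O.ValueGroupˣ →* Fˣ) : Prop :=
  ∀ γ, O.valuation ((s γ : Fˣ) : F) = ((γ : O.ValueGroupˣ) : O.ValueGroup)

/-- the value group of `F` is pure in that of `K` -/
def Pure (i : VEmb O P) : Prop := ∀ (γ : P.ValueGroup) (m : ℕ), 0 < m → γ ^ m ∈ Set.range i.val →
  γ ∈ Set.range i.val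

/-- countable saturation of a valued field (for conditions on the values of polynomials; value `0` means that the
polynomial vanishes) -/
def CSat (P : ValuationSubring K) : Prop := ∀ (Q : ℕ → MvPolynomial ℕ K) (γ : ℕ → P.ValueGroup),
  (∀ m : ℕ, ∃ x : ℕ → K, ∀ i < m, P.valuation (MvPolynomial.eval x (Q i)) = γ i) →
  ∃ x : ℕ → K, ∀ i, P.valuation (MvPolynomial.eval x (Q i)) = γ i

/-- henselian, equal characteristic zero, countably saturated -/
structure Big (P : ValuationSubring K) : Prop where
  hen : HenselianLocalRing P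
  char : CharZero (ResidueField P)
  sat : CSat P

end

/-! ### ultrapowers of valued fields -/

section
variable {K K' : Type} [Field K] [Field K'] (O : ValuationSubring K) (O' : ValuationSubring K')

/-- `(K', O')` is the ultrapower of `(K, O)` -/
structure Ult (π : (ℕ → K) →+* K') : Prop where
  surj : Function.Surjective π
  zero : ∀ x : ℕ → K, π x = 0 ↔ ∀ᶠ j in (hyperfilter ℕ : Filter ℕ), x j = 0
  mem : ∀ x : ℕ → K, π x ∈ O' ↔ ∀ᶠ j in (hyperfilter ℕ : Filter ℕ), x j ∈ O

end

/-- ULT: ultrapowers exist (`Filter.Germ`, or the quotient ring). -/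
def S_ULT : Prop := ∀ (K : Type) [Field K] (O : ValuationSubring K),
  ∃ (K' : Type) (_ : Field K') (O' : ValuationSubring K') (π : (ℕ → K) →+* K'), Ult O O' π

/-- UHEN: the ultrapower is henselian of equal characteristic zero. -/
def S_UHEN : Prop := ∀ (K K' : Type) [Field K] [Field K'] (O : ValuationSubring K) (O' : ValuationSubring K')
  (π : (ℕ → K) →+* K'), Ult O O' π → HenselianLocalRing O → CharZero (ResidueField O) →
  HenselianLocalRing O' ∧ CharZero (ResidueField O')

/-- UCSAT: the ultrapower is countably saturated.  (`MvPolynomial.map π` is surjective; `γ i = v (π c_i)`; the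
condition number `i` is `v (eval (x j) (Q_i j)) = v (c_i j)` for almost all `j`; diagonal argument: for each `j` take
the largest `N ≤ j` for which a solution of the first `N` conditions exists at the coordinate `j`.) -/
def S_UCSAT : Prop := ∀ (K K' : Type) [Field K] [Field K'] (O : ValuationSubring K) (O' : ValuationSubring K')
  (π : (ℕ → K) →+* K'), Ult O O' π → CSat O'

/-- URES: the residue field and the value group of the ultrapower are the ultrapowers, and the theorem of Łoś for
quantifier-free formulas of the three-sorted language. -/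
def S_URES : Prop := ∀ (K K' : Type) [Field K] [Field K'] (O : ValuationSubring K) (O' : ValuationSubring K')
  (π : (ℕ → K) →+* K'), Ult O O' π →
  ∃ (πk : (ℕ → ResidueField O) → ResidueField O') (πG : (ℕ → O.ValueGroupˣ) → O'.ValueGroupˣ)
    (πV : (ℕ → O.ValueGroup) → O'.ValueGroup),
    Star (RQ.holds (ResidueField O)) (RQ.holds (ResidueField O')) πk ∧
    Star (GQ.holds O.ValueGroupˣ) (GQ.holds O'.ValueGroupˣ) πG ∧ Function.Surjective πV ∧
    ∀ (X Y Z : Type) (φ : Q3 X Y Z) (x : X → ℕ → K) (y : Y → ℕ → ResidueField O) (z : Z → ℕ → O.ValueGroup),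
      Q3.Holds O' (fun i => π (x i)) (fun i => πk (y i)) (fun i => πV (z i)) φ ↔
        ∀ᶠ j in (hyperfilter ℕ : Filter ℕ), Q3.Holds O (fun i => x i j) (fun i => y i j) (fun i => z i j) φ

/-- LOS3: the theorem of Łoś for the three-sorted language. -/
def S_LOS3 : Prop := ∀ (K K' : Type) [Field K] [Field K'] (O : ValuationSubring K)
  (O' : ValuationSubring K') (π : (ℕ → K) →+* K'), Ult O O' π → ∀ n : ℕ, VTh O' n = VTh O n

/-! ### lifting embeddings -/

section
variable {F L : Type} [Field F] [Field L] (O : ValuationSubring F) (P : ValuationSubring L)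
  (ρ : ResidueField O →+* ResidueField P) (ν : O.ValueGroup →*₀ P.ValueGroup)

/-- `g` is an embedding of the subfield `E` of `F` into `L` with the given maps of residues and values -/
structure Part (E : Subfield F) (g : E →+* L) : Prop where
  val : ∀ x : E, P.valuation (g x) = ν (O.valuation (x : F))
  res : ∀ x : E, rs P (g x) = ρ (rs O (x : F))

end

/-- `g'` on `E'` extends `g` on `E` -/
def Ext {F L : Type} [Field F] [Field L] (E : Subfield F) (g : E →+* L) (E' : Subfield F) (g' : E' →+* L) :
    Prop := ∃ h : E ≤ E', ∀ x : E, g' ⟨x, h x.2⟩ = g x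

/-- HEN: Hensel's lemma for polynomials `c_0 + c_1 X + …`, `v(c_0) < 1 = v(c_1)`, which need not be monic.
(`X = - (c_0 / c_1) W`: `c_0 (1 - W + ∑_{i ≥ 2} e_i W^i)` with `e_i` in the maximal ideal, and `W = 1 / T` gives a
monic polynomial `T^n - T^(n-1) + …` with the simple root `1` modulo the maximal ideal.) -/
def S_HEN : Prop := ∀ (K : Type) [Field K] (O : ValuationSubring K), HenselianLocalRing O → ∀ Q : K[X],
  O.valuation (Q.coeff 0) < 1 → O.valuation (Q.coeff 1) = 1 → (∀ i, O.valuation (Q.coeff i) ≤ 1) →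
  ∃ y : K, Q.eval y = 0 ∧ O.valuation y = O.valuation (Q.coeff 0)

/-- SIMP, simple extensions.  `E' = {Q₁(x) / Q₂(x)}`, `g' (Q₁(x) / Q₂(x)) = (g Q₁)(y) / (g Q₂)(y)`. -/
def S_SIMP : Prop := ∀ (F L : Type) [Field F] [Field L] (O : ValuationSubring F) (P : ValuationSubring L)
  (ρ : ResidueField O →+* ResidueField P) (ν : O.ValueGroup →*₀ P.ValueGroup), StrictMono ν →
  ∀ (E : Subfield F) (g : E →+* L), Part O P ρ ν E g → ∀ (x : F) (y : L),
  (∀ Q : E[X], P.valuation (Q.eval₂ g y) = ν (O.valuation (Q.eval₂ E.subtype x))) →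
  (∀ Q₁ Q₂ : E[X], Q₂.eval₂ E.subtype x ≠ 0 →
    rs P (Q₁.eval₂ g y / Q₂.eval₂ g y) = ρ (rs O (Q₁.eval₂ E.subtype x / Q₂.eval₂ E.subtype x))) →
  ∃ (E' : Subfield F) (g' : E' →+* L), Ext E g E' g' ∧ Part O P ρ ν E' g' ∧ (∃ h : x ∈ E', g' ⟨x, h⟩ = y) ∧
    ∀ z ∈ E', ∃ Q₁ Q₂ : E[X], Q₂.eval₂ E.subtype x ≠ 0 ∧ z = Q₁.eval₂ E.subtype x / Q₂.eval₂ E.subtype x

/-- RES: adjoining one residue.  Let `κ` be the field of the residues of `E`.  If `r` is transcendental over `κ` take
any `x ∈ O` with residue `r` and any `y ∈ P` with residue `ρ r`; if it is algebraic lift the minimal polynomial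
(separable) to a monic polynomial over `E ∩ O` and take roots `x`, `y` by Hensel's lemma.  In both cases
`v(∑ c_i x^i) = max v(c_i)` for polynomials of degree less than the degree of `r`, and the residue of
`∑ c_i x^i / c_j` is `∑ (c_i / c_j)‾ r^i ≠ 0`; the same for `y`.  `E' = E(x)`. -/
def S_RES : Prop := ∀ (F L : Type) [Field F] [Field L] (O : ValuationSubring F) (P : ValuationSubring L)
  (ρ : ResidueField O →+* ResidueField P) (ν : O.ValueGroup →*₀ P.ValueGroup), HenselianLocalRing O →
  HenselianLocalRing P → CharZero (ResidueField O) → StrictMono ν → ∀ (E : Subfield F) (g : E →+* L),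
  Part O P ρ ν E g → ∀ r : ResidueField O, ∃ (E' : Subfield F) (g' : E' →+* L), Ext E g E' g' ∧
    Part O P ρ ν E' g' ∧ (∃ x ∈ E', x ∈ O ∧ rs O x = r) ∧ ∀ x ∈ E', ∃ y ∈ E, O.valuation x = O.valuation y

/-- VAL: adjoining one value of the section.  `x = s γ`, `y = t γ`.  Let `m` be the order of `γ` modulo the value
group of `E` (possibly infinite); for polynomials of degree less than `m` the values `v(c_i) γ^i` of the terms of
`∑ c_i x^i` are distinct; if `m` is finite `x^m = s (γ^m) ∈ E`.  `E' = E(x)`. -/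
def S_VAL : Prop := ∀ (F L : Type) [Field F] [Field L] (O : ValuationSubring F) (P : ValuationSubring L)
  (ρ : ResidueField O →+* ResidueField P) (ν : O.ValueGroup →*₀ P.ValueGroup), StrictMono ν →
  ∀ (s : O.ValueGroupˣ →* Fˣ) (t : O.ValueGroupˣ →* Lˣ), Sec O s →
  (∀ γ : O.ValueGroupˣ, P.valuation ((t γ : Lˣ) : L) = ν γ) → ∀ (E : Subfield F) (g : E →+* L),
  Part O P ρ ν E g → (∀ γ : O.ValueGroupˣ, (∃ x ∈ E, O.valuation x = γ) → ((s γ : Fˣ) : F) ∈ E) →
  (∀ (γ : O.ValueGroupˣ) (h : ((s γ : Fˣ) : F) ∈ E), g ⟨_, h⟩ = ((t γ : Lˣ) : L)) →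
  ∀ δ : O.ValueGroupˣ, ∃ (E' : Subfield F) (g' : E' →+* L), Ext E g E' g' ∧ Part O P ρ ν E' g' ∧
    ((s δ : Fˣ) : F) ∈ E' ∧ (∀ γ : O.ValueGroupˣ, (∃ x ∈ E', O.valuation x = γ) → ((s γ : Fˣ) : F) ∈ E') ∧
    ∀ (γ : O.ValueGroupˣ) (h : ((s γ : Fˣ) : F) ∈ E'), g' ⟨_, h⟩ = ((t γ : Lˣ) : L)

section
variable {K : Type} [Field K] (O : ValuationSubring K) (E : Subfield K) (x : K)

/-- `p a` holds for all `a ∈ E` which are close enough to `x` -/
def Ev (p : K → Prop) : Prop := ∃ a₀ ∈ E, ∀ a ∈ E, O.valuation (x - a) ≤ O.valuation (x - a₀) → p a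

/-- `x` has no best approximation in `E` -/
def NoBest : Prop := ∀ a ∈ E, ∃ a' ∈ E, O.valuation (x - a') < O.valuation (x - a)

end

/-- PLIM: pseudolimits exist by saturation.  (Conditions `v(y - g a) = ν (v(x - a))`, `a ∈ E`; finitely many are
satisfied by `g a'` with `a' ∈ E` close to `x`.) -/
def S_PLIM : Prop := ∀ (F L : Type) [Field F] [Field L] (O : ValuationSubring F) (P : ValuationSubring L)
  (ρ : ResidueField O →+* ResidueField P) (ν : O.ValueGroup →*₀ P.ValueGroup), Countable F → CSat P →
  StrictMono ν → ∀ (E : Subfield F) (g : E →+* L), Part O P ρ ν E g → ∀ x : F, NoBest O E x →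
  ∃ y : L, ∀ a : E, P.valuation (y - g a) = ν (O.valuation (x - (a : F)))

/-- DOM: near `x` one of the terms of the Taylor expansion of `Q` at `x` is the strict maximum.  (The values
`λ = v(x - a)`, `a ∈ E`, are positive without minimum.  For `i ≠ j` and nonzero `β_i`, `β_j` the comparison of
`β_i λ^i` and `β_j λ^j` is the same strict one for all small `λ`: if `i < j` and `λ₀^(j-i) < β_i / β_j` for some `λ₀`,
then for all smaller `λ`; if `β_i / β_j ≤ λ^(j-i)` for all `λ` then `<` for all `λ`.) -/
def S_DOM : Prop := ∀ (K : Type) [Field K] (O : ValuationSubring K) (E : Subfield K) (x : K), NoBest O E x →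
  ∀ Q : K[X], (∀ i, 1 ≤ i → (taylor x Q).coeff i = 0) ∨ ∃ h, 1 ≤ h ∧ (taylor x Q).coeff h ≠ 0 ∧
    Ev O E x fun a =>
      O.valuation (Q.eval a - Q.eval x) = O.valuation ((taylor x Q).coeff h) * O.valuation (x - a) ^ h ∧
      ∀ i, 1 ≤ i → i ≠ h → O.valuation ((taylor x Q).coeff i) * O.valuation (x - a) ^ i <
        O.valuation ((taylor x Q).coeff h) * O.valuation (x - a) ^ h

/-- TAY (Ostrowski): if the value of `Q(a)` is constant for all `a ∈ E` close to `x` then it is the value of `Q(x)`;
if not, `v(Q(x)) < v(Q(a))` for all close `a`.  Proof: `Q(a) - Q(x) = ∑_{i ≥ 1} Q_i (a - x)^i` (Taylor, `Q_i` the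
Hasse derivatives at `x`); the functions `λ ↦ v(Q_i) λ^i` of `λ = v(x - a)` have different slopes, so for all small
`λ` one of them is the strict maximum; so `v(Q(a) - Q(x)) = v(Q_h) λ^h` for some `h ≥ 1`, strictly decreasing (or `Q`
is constant). -/
def S_TAY : Prop := ∀ (K : Type) [Field K] (O : ValuationSubring K) (E : Subfield K) (x : K), NoBest O E x →
  ∀ Q : K[X], (∃ δ, Ev O E x fun a => O.valuation (Q.eval a) = δ) ∧
      (Ev O E x fun a => O.valuation (Q.eval a) = O.valuation (Q.eval x)) ∨
    Ev O E x fun a => O.valuation (Q.eval x) < O.valuation (Q.eval a) ∧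
      ∀ a' ∈ E, O.valuation (x - a') < O.valuation (x - a) → O.valuation (Q.eval a') < O.valuation (Q.eval a)

/-- ROOT (Kaplansky, residue characteristic zero): let `Q` be a polynomial of minimal degree over `E` whose value is
not constant near `x`.  Then `Q` has a root `z` in the henselian field `K` which is close to `x`.
Proof: `β_i = v(Q_i)`, `Q_i` the coefficients of the Taylor expansion at `x`.  By TAY for `Q'` (degree smaller)
`v(Q'(a))` is constant `= β_1`, so `β_i λ^(i-1) < β_1` for `i ≥ 2` and small `λ` (the integers `i` are units); so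
`v(Q(a) - Q(x)) = β_1 λ` and `v(Q(x)) < β_1 λ` for all `λ = v(x - a)`.  HEN for `Q(x + c Y) / (Q_1 c)`, `c = x - a₀`. -/
def S_ROOT : Prop := ∀ (K : Type) [Field K] (O : ValuationSubring K), HenselianLocalRing O →
  CharZero (ResidueField O) → ∀ (E : Subfield K) (x : K), NoBest O E x → ∀ Q : E[X], Q ≠ 0 →
  (∀ R : E[X], R ≠ 0 → R.natDegree < Q.natDegree → ∃ δ, Ev O E x fun a => O.valuation (R.eval₂ E.subtype a) = δ) →
  (¬ ∃ δ, Ev O E x fun a => O.valuation (Q.eval₂ E.subtype a) = δ) →
  ∃ z : K, Q.eval₂ E.subtype z = 0 ∧ ∀ a ∈ E, O.valuation (z - x) < O.valuation (x - a)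

/-- IMM: immediate extensions.  `x` has no best approximation in `E`.  By PLIM there is
`y ∈ L` with `v(y - g a) = ν (v(x - a))` for all `a ∈ E`, so `y` has no best approximation in the image
`g.fieldRange`; TAY for `x`, `E` and for `y`, `g.fieldRange`.  If the
values of all polynomials over `E` are constant near `x`, `E' = E(x)`, `x ↦ y` (`Q(x) = Q(a) (1 + small)` for close
`a ∈ E`, so values and residues are right).  Otherwise take a polynomial `Q` of minimal degree with nonconstant
values; it is irreducible over `E`; ROOT gives roots `z ∈ F` of `Q`, close to `x`, and `z' ∈ L` of `g Q`, close to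
`y`; `E' = E(z)`, `z ↦ z'` (TAY also for `z`, `z'`; reduce polynomials modulo `Q`); SIMP. -/
def S_IMM : Prop := ∀ (F L : Type) [Field F] [Field L] (O : ValuationSubring F)
  (P : ValuationSubring L) (ρ : ResidueField O →+* ResidueField P) (ν : O.ValueGroup →*₀ P.ValueGroup),
  Countable F → HenselianLocalRing O → CharZero (ResidueField O) → Big P → StrictMono ν →
  ∀ (E : Subfield F) (g : E →+* L), Part O P ρ ν E g → (∀ r, ∃ x ∈ E, x ∈ O ∧ rs O x = r) →
  (∀ γ, ∃ x ∈ E, O.valuation x = γ) → ∀ x : F, x ∉ E →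
  ∃ (E' : Subfield F) (g' : E' →+* L), Ext E g E' g' ∧ Part O P ρ ν E' g' ∧ ∃ z ∈ E', z ∉ E

/-- SEC: extension of sections over countable torsion-free quotients, by saturation.  (Variables `x_γ`, conditions
`v(x_γ) = ν γ`, `x_(γ δ) - x_γ x_δ = 0`, `x_h - t₀ h = 0`; finitely many can be satisfied since finitely generated
torsion-free abelian groups are free.) -/
def S_SEC : Prop := ∀ (L : Type) [Field L] (P : ValuationSubring L), CSat P → ∀ (G : Type) [CommGroup G],
  Countable G → ∀ (H : Subgroup G), (∀ (γ : G) (m : ℕ), 0 < m → γ ^ m ∈ H → γ ∈ H) →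
  ∀ (ν : G →* P.ValueGroupˣ) (t₀ : H →* Lˣ), (∀ h : H, P.valuation ((t₀ h : Lˣ) : L) = (ν h : P.ValueGroup)) →
  ∃ t : G →* Lˣ, (∀ h : H, t h = t₀ h) ∧ ∀ γ : G, P.valuation ((t γ : Lˣ) : L) = (ν γ : P.ValueGroup)

/-- LT, the lifting theorem.  (Zorn's lemma for RES, then for VAL with the section of SEC, then for IMM; the unions
of chains of `Part`s are `Part`s.) -/
def S_LT : Prop := ∀ (F F' L : Type) [Field F] [Field F'] [Field L]
  (OF : ValuationSubring F) (O' : ValuationSubring F') (P : ValuationSubring L) (s : OF.ValueGroupˣ →* Fˣ)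
  (s' : O'.ValueGroupˣ →* F'ˣ) (ι : VEmb OF O') (j : VEmb OF P) (ρ : ResidueField O' →+* ResidueField P)
  (ν : O'.ValueGroup →*₀ P.ValueGroup), Countable F' → HenselianLocalRing O' → CharZero (ResidueField O') →
  Big P → StrictMono ν → Sec OF s → Sec O' s' →
  (∀ γ : OF.ValueGroupˣ, ((s' (Units.map ι.val γ) : F'ˣ) : F') = ι.f ((s γ : Fˣ) : F)) → Pure ι →
  (∀ r, ρ (ι.res r) = j.res r) → (∀ γ, ν (ι.val γ) = j.val γ) →
  ∃ j' : VEmb O' P, (∀ x, j'.f (ι.f x) = j.f x) ∧ (∀ r, j'.res r = ρ r) ∧ ∀ γ, j'.val γ = ν γ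

/-- the subfield `E` of `K` is closed under Hensel's lemma -/
def HC {K : Type} [Field K] (O : ValuationSubring K) (E : Subfield K) : Prop :=
  ∀ f : O[X], f.Monic → (∀ i, ((f.coeff i : O) : K) ∈ E) → ∀ a₀ : O, (a₀ : K) ∈ E →
    f.eval a₀ ∈ maximalIdeal O → IsUnit (f.derivative.eval a₀) →
    ∃ a : O, (a : K) ∈ E ∧ f.IsRoot a ∧ a - a₀ ∈ maximalIdeal O

/-- the values of `E` are pure in the value group of `K` -/
def PureIn {K : Type} [Field K] (O : ValuationSubring K) (E : Subfield K) : Prop :=
  ∀ (γ : O.ValueGroup) (m : ℕ), 0 < m → (∃ x ∈ E, O.valuation x = γ ^ m) → ∃ x ∈ E, O.valuation x = γ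

/-- CLOS: closing a sequence of elements.  (Close under the field operations, a choice function for Hensel's lemma,
and a choice function for `y` with `v(y)^m = v(x)`; for instance `⋃ E_n`, `E_(n+1)` generated by `E_n` and the
countably many chosen elements for the data in `E_n`.) -/
def S_CLOS : Prop := ∀ (K : Type) [Field K] (O : ValuationSubring K), HenselianLocalRing O → ∀ A : ℕ → K,
  ∃ E : Subfield K, Countable E ∧ (∀ n, A n ∈ E) ∧ HC O E ∧ PureIn O E

/-- HCH: such a subfield is henselian. -/
def S_HCH : Prop := ∀ (K : Type) [Field K] (O : ValuationSubring K) (E : Subfield K), HC O E →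
  HenselianLocalRing (O.comap E.subtype)

/-- NICE: countable subfields of `K` which are henselian, have a pure value group and a section, above a given one
and a given sequence.  (`E_0` from CLOS for the image of `F` and `A`; extend the section by SEC (`L := K`) to its
value group, `E_1` from CLOS for `E_0` and the values of the section, and so on; `E = ⋃ E_n` is `HC` and `PureIn`;
`F' = E`, `O' = P.comap E.subtype`, HCH.) -/
def S_NICE : Prop := ∀ (F K : Type) [Field F] [Field K] (OF : ValuationSubring F)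
  (P : ValuationSubring K) (s : OF.ValueGroupˣ →* Fˣ) (i : VEmb OF P), Countable F → Sec OF s → Big P →
  Pure i → ∀ A : ℕ → K, ∃ (F' : Type) (_ : Field F') (O' : ValuationSubring F') (s' : O'.ValueGroupˣ →* F'ˣ)
    (ι : VEmb OF O') (i' : VEmb O' P), Countable F' ∧ HenselianLocalRing O' ∧ Sec O' s' ∧
    (∀ x, i'.f (ι.f x) = i.f x) ∧
    (∀ γ : OF.ValueGroupˣ, ((s' (Units.map ι.val γ) : F'ˣ) : F') = ι.f ((s γ : Fˣ) : F)) ∧
    (∀ n, ∃ x, i'.f x = A n) ∧ Pure i'

/-! ### the games -/

/-- RMOV: one round of the game for fields.  (A move is the enumeration of `κ'`; `ρ` is well defined since the game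
gives equivalence of quantifier-free formulas; reindexing.) -/
def S_RMOV : Prop := ∀ (κ κ' A B : Type) [Field κ] [Field κ'] [Field A] [Field B] (e : κ →+* κ'), Countable κ' →
  ∀ n : ℕ,
  (Odd (n + 1) → ∀ (a : κ →+* A) (b : κ →+* B) (a' : κ' →+* A), (∀ x, a' (e x) = a x) →
    Game (RQ.holds A) (RQ.holds B) (n + 1) (fun x => a x) (fun x => b x) →
    ∃ b' : κ' →+* B, (∀ x, b' (e x) = b x) ∧ Game (RQ.holds A) (RQ.holds B) n (fun x => a' x) (fun x => b' x)) ∧
  (¬ Odd (n + 1) → ∀ (a : κ →+* A) (b : κ →+* B) (b' : κ' →+* B), (∀ x, b' (e x) = b x) →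
    Game (RQ.holds A) (RQ.holds B) (n + 1) (fun x => a x) (fun x => b x) →
    ∃ a' : κ' →+* A, (∀ x, a' (e x) = a x) ∧ Game (RQ.holds A) (RQ.holds B) n (fun x => a' x) (fun x => b' x))

/-- GMOV: one round of the game for ordered abelian groups. -/
def S_GMOV : Prop := ∀ (κ κ' A B : Type) [CommGroup κ] [LinearOrder κ] [IsOrderedMonoid κ]
  [CommGroup κ'] [LinearOrder κ'] [IsOrderedMonoid κ'] [CommGroup A] [LinearOrder A] [IsOrderedMonoid A]
  [CommGroup B] [LinearOrder B] [IsOrderedMonoid B] (e : κ →* κ'), Countable κ' → ∀ n : ℕ,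
  (Odd (n + 1) → ∀ (a : κ →* A) (b : κ →* B) (a' : κ' →* A), StrictMono a' → (∀ x, a' (e x) = a x) →
    Game (GQ.holds A) (GQ.holds B) (n + 1) (fun x => a x) (fun x => b x) →
    ∃ b' : κ' →* B, StrictMono b' ∧ (∀ x, b' (e x) = b x) ∧
      Game (GQ.holds A) (GQ.holds B) n (fun x => a' x) (fun x => b' x)) ∧
  (¬ Odd (n + 1) → ∀ (a : κ →* A) (b : κ →* B) (b' : κ' →* B), StrictMono b' → (∀ x, b' (e x) = b x) →
    Game (GQ.holds A) (GQ.holds B) (n + 1) (fun x => a x) (fun x => b x) →
    ∃ a' : κ' →* A, StrictMono a' ∧ (∀ x, a' (e x) = a x) ∧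
      Game (GQ.holds A) (GQ.holds B) n (fun x => a' x) (fun x => b' x))

/-- PUR: purity is passed to the other side. -/
def S_PUR : Prop := ∀ (κ A B : Type) [CommGroup κ] [LinearOrder κ] [IsOrderedMonoid κ]
  [CommGroup A] [LinearOrder A] [IsOrderedMonoid A] [CommGroup B] [LinearOrder B] [IsOrderedMonoid B]
  (n : ℕ) (a : κ →* A) (b : κ →* B), 0 < n → StrictMono a → StrictMono b →
  Game (GQ.holds A) (GQ.holds B) n (fun x => a x) (fun x => b x) →
  (Odd n → (∀ (γ : B) (m : ℕ), 0 < m → γ ^ m ∈ Set.range b → γ ∈ Set.range b) →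
    ∀ (γ : A) (m : ℕ), 0 < m → γ ^ m ∈ Set.range a → γ ∈ Set.range a) ∧
  (¬ Odd n → (∀ (γ : A) (m : ℕ), 0 < m → γ ^ m ∈ Set.range a → γ ∈ Set.range a) →
    ∀ (γ : B) (m : ℕ), 0 < m → γ ^ m ∈ Set.range b → γ ∈ Set.range b)

/-- RBASE: the game can be started above the prime field. -/
def S_RBASE : Prop := ∀ (κ A B : Type) [Field κ] [Field A] [Field B], CharZero κ →
  (∀ x : κ, ∃ m k : ℤ, k ≠ 0 ∧ (k : κ) * x = m) → ∀ (a : κ →+* A) (b : κ →+* B) (n : ℕ),
  Game (RQ.holds A) (RQ.holds B) n (I := Empty) Empty.elim Empty.elim →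
  Game (RQ.holds A) (RQ.holds B) n (fun x => a x) (fun x => b x)

/-- GBASE: the game can be started above the trivial group. -/
def S_GBASE : Prop := ∀ (κ A B : Type) [CommGroup A] [LinearOrder A] [IsOrderedMonoid A] [CommGroup B]
  [LinearOrder B] [IsOrderedMonoid B] (n : ℕ), Countable κ →
  Game (GQ.holds A) (GQ.holds B) n (I := Empty) Empty.elim Empty.elim →
  Game (GQ.holds A) (GQ.holds B) n (fun _ : κ => (1 : A)) (fun _ : κ => (1 : B))

/-- EMB: embeddings preserve quantifier-free formulas. -/
def S_EMB : Prop := ∀ (F K : Type) [Field F] [Field K] (O : ValuationSubring F) (P : ValuationSubring K)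
  (i : VEmb O P) (X Y Z : Type) (φ : Q3 X Y Z) (x : X → F) (y : Y → ResidueField O) (z : Z → O.ValueGroup),
  Q3.Holds P (fun k => i.f (x k)) (fun k => i.res (y k)) (fun k => i.val (z k)) φ ↔ Q3.Holds O x y z φ

/-- CLAIM: induction on `n`; a block of quantifiers is one round: NICE on the side of the first player, RMOV and
GMOV for the residue fields and the value groups, LT, PUR for the next round; EMB for `n = 0`. -/
def S_CLAIM : Prop :=
  ∀ (n : ℕ) (F K L : Type) [Field F] [Field K] [Field L] (OF : ValuationSubring F) (O : ValuationSubring K)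
    (P : ValuationSubring L) (s : OF.ValueGroupˣ →* Fˣ) (i : VEmb OF O) (j : VEmb OF P), Countable F →
    Sec OF s → Big O → Big P → (Odd n → Pure i) → (¬ Odd n → n ≠ 0 → Pure j) →
    Game (RQ.holds (ResidueField O)) (RQ.holds (ResidueField P)) n (fun r => i.res r) (fun r => j.res r) →
    Game (GQ.holds O.ValueGroupˣ) (GQ.holds P.ValueGroupˣ) n (fun γ => Units.map i.val.toMonoidHom γ)
      (fun γ => Units.map j.val.toMonoidHom γ) →
    ∀ (X Y Z : Type) (φ : F3 n X Y Z) (x : X → F) (y : Y → ResidueField OF) (z : Z → OF.ValueGroup),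
      F3.Holds O n φ (fun k => i.f (x k)) (fun k => i.res (y k)) (fun k => i.val (z k)) →
      F3.Holds P n φ (fun k => j.f (x k)) (fun k => j.res (y k)) (fun k => j.val (z k))

end Pool.Agent.U174.AK
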