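import Pool.Agent.U174.AK.Stm

/-!
# Project AK: the assembly of the main theorem
-/

set_option autoImplicit false

namespace Pool.Agent.U174.AK.Fin

open IsLocalRing Polynomial Filter Pool.Agent.U174.AK

section
variable {K : Type} [Field K] (O : ValuationSubring K)

theorem nat_val (h : CharZero (ResidueField O)) (m : ℕ) (hm : m ≠ 0) : O.valuation (m : K) = 1 := by
  have h1 : IsUnit ((m : ℕ) : O) := by
    rw [← residue_ne_zero_iff_isUnit, map_natCast]
    exact_mod_cast hm
  have h2 := (ValuationSubring.valuation_eq_one_iff O ((m : ℕ) : O)).mp h1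
  simpa using h2

theorem charZeroK (h : CharZero (ResidueField O)) : CharZero K := by
  refine charZero_of_inj_zero ?_
  intro n hn
  by_contra h0
  have := nat_val O h n h0
  rw [hn, map_zero] at this
  exact zero_ne_one this

theorem rat_mem (h : CharZero (ResidueField O)) (q : ℚ) : ((q : ℚ) : K) ∈ O := by
  haveI := charZeroK O h
  rw [← ValuationSubring.valuation_le_one_iff, Rat.cast_def, map_div₀]
  rw [nat_val O h q.den q.den_nz, div_one]
  rw [ValuationSubring.valuation_le_one_iff]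
  exact intCast_mem O q.num

/-- the embedding of the rational numbers -/
noncomputable def emb (h : CharZero (ResidueField O)) : VEmb (⊤ : ValuationSubring ℚ) O :=
  haveI := charZeroK O h
  { f := Rat.castHom K
    mem := fun x => ⟨fun _ => ValuationSubring.mem_top x, fun _ => rat_mem O h x⟩ }

end

theorem top_units (γ : (⊤ : ValuationSubring ℚ).ValueGroupˣ) : γ = 1 := by
  have key : ∀ γ : (⊤ : ValuationSubring ℚ).ValueGroup, γ ≤ 1 := by
    intro γ
    obtain ⟨x, hx⟩ := (⊤ : ValuationSubring ℚ).valuation_surjective γ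
    rw [← hx, ValuationSubring.valuation_le_one_iff]
    exact ValuationSubring.mem_top x
  apply le_antisymm
  · exact_mod_cast key γ
  · have h := key ((γ⁻¹ : (⊤ : ValuationSubring ℚ).ValueGroupˣ) : (⊤ : ValuationSubring ℚ).ValueGroup)
    have h' : γ⁻¹ ≤ 1 := by exact_mod_cast h
    exact inv_le_one'.mp h'

theorem top_values (γ : (⊤ : ValuationSubring ℚ).ValueGroup) : γ = 0 ∨ γ = 1 := by
  by_cases h : γ = 0
  · exact Or.inl h
  · right
    have := top_units (Units.mk0 γ h)
    have h2 := congrArg Units.val this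
    simpa using h2

theorem sec_one : Sec (⊤ : ValuationSubring ℚ) 1 := by
  intro γ
  rw [top_units γ]
  simp

theorem pure_emb {K : Type} [Field K] (O : ValuationSubring K) (i : VEmb (⊤ : ValuationSubring ℚ) O) :
    Pure i := by
  intro γ m hm h
  obtain ⟨δ, hδ⟩ := h
  rcases top_values δ with rfl | rfl
  · rw [map_zero] at hδ
    exact ⟨0, by rw [map_zero, eq_comm]; exact pow_eq_zero_iff (by omega) |>.mp hδ.symm⟩
  · rw [map_one] at hδ
    have h0 : γ ≠ 0 := by
      rintro rfl
      rw [zero_pow (by omega)] at hδ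
      exact one_ne_zero hδ
    refine ⟨1, ?_⟩
    rw [map_one]
    exact ((pow_eq_one_iff_of_nonneg zero_le' (by omega)).mp hδ.symm).symm

theorem rat_quot (h : CharZero (ResidueField (⊤ : ValuationSubring ℚ)))
    (x : ResidueField (⊤ : ValuationSubring ℚ)) :
    ∃ m k : ℤ, k ≠ 0 ∧ (k : ResidueField (⊤ : ValuationSubring ℚ)) * x = m := by
  obtain ⟨y, rfl⟩ := residue_surjective x
  refine ⟨(y : ℚ).num, ((y : ℚ).den : ℤ), by exact_mod_cast (y : ℚ).den_nz, ?_⟩
  rw [← map_intCast (residue (⊤ : ValuationSubring ℚ)), ← map_intCast (residue (⊤ : ValuationSubring ℚ)),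
    ← map_mul]
  congr 1
  apply Subtype.ext
  push_cast
  exact Rat.den_mul_eq_num (y : ℚ)

theorem charZero_top : CharZero (ResidueField (⊤ : ValuationSubring ℚ)) := by
  refine charZero_of_inj_zero ?_
  intro n hn
  by_contra h0
  have h1 : IsUnit ((n : ℕ) : (⊤ : ValuationSubring ℚ)) := by
    rw [ValuationSubring.valuation_eq_one_iff]
    have h2 : (((n : ℕ) : (⊤ : ValuationSubring ℚ)) : ℚ) ≠ 0 := by exact_mod_cast h0
    rcases top_values ((⊤ : ValuationSubring ℚ).valuation (((n : ℕ) : (⊤ : ValuationSubring ℚ)) : ℚ)) with h | h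
    · exact absurd ((Valuation.zero_iff _).mp h) h2
    · exact h
  rw [← residue_ne_zero_iff_isUnit, map_natCast] at h1
  exact h1 hn

theorem countable_top : Countable (⊤ : ValuationSubring ℚ).ValueGroupˣ :=
  ⟨⟨fun _ => 0, fun a b _ => by rw [top_units a, top_units b]⟩⟩

theorem t_MAIN (hLOS : S_LOS) (hFSAT : S_FSAT) (hGAM : S_GAM) (hSYN : S_SYN) (hULT : S_ULT) (hUHEN : S_UHEN)
    (hUCSAT : S_UCSAT) (hURES : S_URES) (hLOS3 : S_LOS3) (hCLAIM : S_CLAIM) (hRBASE : S_RBASE)
    (hGBASE : S_GBASE) : S_MAIN := by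
  intro K L _ _ O P hO hP cO cP n hR hG
  obtain ⟨K', _, O', π, hπ⟩ := hULT K O
  obtain ⟨L', _, P', π', hπ'⟩ := hULT L P
  obtain ⟨henO, charO⟩ := hUHEN K K' O O' π hπ hO cO
  obtain ⟨henP, charP⟩ := hUHEN L L' P P' π' hπ' hP cP
  have bigO : Big O' := ⟨henO, charO, hUCSAT _ _ _ _ _ hπ⟩
  have bigP : Big P' := ⟨henP, charP, hUCSAT _ _ _ _ _ hπ'⟩
  obtain ⟨πk, πG, πV, sk, sG, -, -⟩ := hURES K K' O O' π hπ
  obtain ⟨πk', πG', πV', sk', sG', -, -⟩ := hURES L L' P P' π' hπ'
  rw [← hLOS3 K K' O O' π hπ n, ← hLOS3 L L' P P' π' hπ' n]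
  obtain ⟨⟨SR, hSR⟩, ⟨SG, hSG⟩⟩ := hSYN
  -- theories of the ultrapowers
  have tr : ∀ {Q : Type → Type} {A A' : Type} [Nonempty A] (hA : ∀ Y : Type, Q Y → (Y → A) → Prop)
      (hA' : ∀ Y : Type, Q Y → (Y → A') → Prop) (p : (ℕ → A) → A'), Star hA hA' p →
      ∀ φ : Frag Q n Empty, AK.Holds hA' n φ Empty.elim ↔ AK.Holds hA n φ Empty.elim := by
    intro Q A A' _ hA hA' p hp φ
    have h := hLOS Q A A' hA hA' p hp n Empty φ (fun y => y.elim)
    have e1 : (fun y : Empty => p (y.elim : ℕ → A)) = Empty.elim := funext fun y => y.elim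
    have e2 : ∀ j : ℕ, (fun y : Empty => ((y.elim : ℕ → A) j)) = Empty.elim := fun j => funext fun y => y.elim
    rw [e1] at h
    simp only [e2] at h
    rw [h, Filter.eventually_const]
  have gk : Game (RQ.holds (ResidueField O')) (RQ.holds (ResidueField P')) n (I := Empty) Empty.elim
      Empty.elim := by
    refine hGAM RQ SR _ _ _ _ (hSR _) (hSR _) (hFSAT _ _ _ _ _ _ sk) (hFSAT _ _ _ _ _ _ sk') n Empty _ _ ?_
    intro φ hφ
    rw [tr _ _ πk sk] at hφ
    rw [tr _ _ πk' sk']
    exact hR hφ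
  have gG : Game (GQ.holds O'.ValueGroupˣ) (GQ.holds P'.ValueGroupˣ) n (I := Empty) Empty.elim
      Empty.elim := by
    refine hGAM GQ SG _ _ _ _ (hSG _) (hSG _) (hFSAT _ _ _ _ _ _ sG) (hFSAT _ _ _ _ _ _ sG') n Empty _ _ ?_
    intro φ hφ
    rw [tr _ _ πG sG] at hφ
    rw [tr _ _ πG' sG']
    exact hG hφ
  haveI := countable_top
  have hk := hRBASE (ResidueField (⊤ : ValuationSubring ℚ)) _ _ charZero_top (rat_quot charZero_top)
    (emb O' charO).res (emb P' charP).res n gk
  have hg := hGBASE (⊤ : ValuationSubring ℚ).ValueGroupˣ _ _ n countable_top gG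
  intro φ hφ
  have h := hCLAIM n ℚ K' L' ⊤ O' P' 1 (emb O' charO) (emb P' charP) inferInstance sec_one bigO bigP
    (fun _ => pure_emb _ _) (fun _ _ => pure_emb _ _) hk ?_ Empty Empty Empty φ Empty.elim Empty.elim Empty.elim ?_
  · have e1 : (fun k : Empty => (emb P' charP).f (Empty.elim k)) = Empty.elim := funext fun y => y.elim
    have e2 : (fun k : Empty => (emb P' charP).res (Empty.elim k)) = Empty.elim := funext fun y => y.elim
    have e3 : (fun k : Empty => (emb P' charP).val (Empty.elim k)) = Empty.elim := funext fun y => y.elim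
    rw [e1, e2, e3] at h
    exact h
  · have e1 : ∀ γ : (⊤ : ValuationSubring ℚ).ValueGroupˣ,
        Units.map (emb O' charO).val.toMonoidHom γ = 1 := fun γ => by rw [top_units γ, map_one]
    have e2 : ∀ γ : (⊤ : ValuationSubring ℚ).ValueGroupˣ,
        Units.map (emb P' charP).val.toMonoidHom γ = 1 := fun γ => by rw [top_units γ, map_one]
    simp only [e1, e2]
    exact hg
  · have e1 : (fun k : Empty => (emb O' charO).f (Empty.elim k)) = Empty.elim := funext fun y => y.elim
    have e2 : (fun k : Empty => (emb O' charO).res (Empty.elim k)) = Empty.elim := funext fun y => y.elim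
    have e3 : (fun k : Empty => (emb O' charO).val (Empty.elim k)) = Empty.elim := funext fun y => y.elim
    rw [e1, e2, e3]
    exact hφ

end Pool.Agent.U174.AK.Fin
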